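import Pool.Agent.MP_f0649b_al.Sp.T23

/-! Order 16, the prime 5. -/

open MulAction
open scoped Pointwise

namespace Pool.Agent.MP_f0649b_al.Sp

variable {T L : Type} [Group T] [CommGroup L] [MulDistribMulAction T L] {om : L →* L →* ℂˣ}

namespace D16
variable {Y : Subgroup T}

theorem fpf5 [Finite L] (d : D16 om Y 5) {k : T} (hk : ∀ x : L, k ^ 5 • x = x)
    (h2 : ∃ x : L, k • x ≠ x) (x : L) (hx : k • x = x) : x = 1 := by
  obtain ⟨h3, h4⟩ := d.card_fx Nat.prime_five hk h2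
  unfold Nat.ModEq at h4
  have : x ∈ fx L k := hx
  rwa [Subgroup.card_eq_one.1 (by omega : Nat.card (fx L k) = 1), Subgroup.mem_bot] at this

theorem kap5 [Finite T] [Finite L] (d : D16 om Y 5) : Kap T om 10 := by
  refine d.kap fun R hR _ hY => ?_
  obtain ⟨y, hy, hs, h⟩ := d.nt
  have := card_mod_one Nat.prime_five y R (hY y hy) hs fun x _ => d.fpf5 hs h x
  rw [hR] at this
  exact absurd this (by decide)

theorem irr5 [Finite L] (d : D16 om Y 5) (M : Subgroup L) (hY : ∀ u ∈ Y, ∀ x ∈ M, u • x ∈ M) :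
    M = ⊥ ∨ M = ⊤ := by
  obtain ⟨y, hy, hs, h⟩ := d.nt
  have h1 := card_mod_one Nat.prime_five y M (hY y hy) hs fun x _ => d.fpf5 hs h x
  obtain ⟨i, hi, e⟩ := card_dvd_pow (p := 2) (n := 4) Nat.prime_two d.card M
  unfold Nat.ModEq at h1
  rcases (by omega : i = 0 ∨ i = 1 ∨ i = 2 ∨ i = 3 ∨ i = 4) with rfl | rfl | rfl | rfl | rfl
  · exact Or.inl (Subgroup.card_eq_one.1 e)
  · omega
  · omega
  · omega
  · exact Or.inr (Subgroup.eq_top_of_card_eq _ (by rw [e, d.card]; norm_num))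

theorem cyc5 [Finite L] (d : D16 om Y 5) {y : T} (hy : y ∈ Jz L Y 5 d.ab) (h : ∃ x : L, y • x ≠ x)
    {u : T} (hu : u ∈ Jz L Y 5 d.ab) : ∃ i : ℕ, ∀ x : L, u • x = y ^ i • x := by
  have := Fact.mk Nat.prime_five
  obtain ⟨x, hx⟩ := h
  have hx1 : x ≠ 1 := fun e => hx (by rw [e, smul_one])
  have h1 : stabilizer d.im x = ⊥ := by
    rw [eq_bot_iff]
    rintro ⟨_, k, hk, rfl⟩ e
    rw [Subgroup.mem_bot]
    refine Subtype.ext (MulEquiv.ext fun z => ?_)
    by_contra hz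
    exact hx1 (d.fpf5 hk.2 ⟨z, hz⟩ x e)
  have h2 : Nat.card d.im ≤ 16 := by
    rw [← Subgroup.index_bot, ← h1, index_stabilizer, ← d.card]
    exact Set.ncard_le_card _
  obtain ⟨n, hn⟩ := IsPGroup.iff_card.1 d.im_p
  have h3 : n ≤ 1 := by
    by_contra hlt
    have := Nat.pow_le_pow_right (by norm_num : 0 < 5) (by omega : 2 ≤ n)
    omega
  have h4 : orderOf (MulDistribMulAction.toMulAut T L y) = 5 :=
    orderOf_eq_prime (by rw [← map_pow]; exact MulEquiv.ext hy.2) fun e => hx (DFunLike.congr_fun e x)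
  have h5 : Subgroup.zpowers (MulDistribMulAction.toMulAut T L y) = d.im :=
    Subgroup.eq_of_le_of_card_ge ((Subgroup.zpowers_le).2 ⟨y, hy, rfl⟩) (by
      rw [Nat.card_zpowers, h4, hn]
      exact Nat.pow_le_pow_right (by norm_num : 0 < 5) h3)
  have h6 : MulDistribMulAction.toMulAut T L u ∈ Subgroup.zpowers (MulDistribMulAction.toMulAut T L y) :=
    h5 ▸ ⟨u, hu, rfl⟩
  obtain ⟨i, hi⟩ := (mem_powers_iff_mem_zpowers).2 h6
  refine ⟨i, fun z => ?_⟩
  have := DFunLike.congr_fun hi z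
  simp only [← map_pow] at this
  exact this.symm

theorem conj5 [Finite L] [Y.Normal] (d : D16 om Y 5) {y : T} (hy : y ∈ Jz L Y 5 d.ab)
    (h : ∃ x : L, y • x ≠ x) (t : T) : ∃ i : ℕ, (i = 1 ∨ i = 2 ∨ i = 3 ∨ i = 4) ∧
      ∀ x : L, (t * y * t⁻¹) • x = y ^ i • x := by
  obtain ⟨i, hi⟩ := d.cyc5 hy h (Jz_conj hy t)
  refine ⟨i % 5, ?_, fun x => by rw [hi, pow_mod_smul hy.2]⟩
  have : i % 5 ≠ 0 := fun e => by
    obtain ⟨x, hx⟩ := h
    have := hi (t • x)
    rw [pow_mod_smul hy.2, e, pow_zero, one_smul, mul_smul, mul_smul, inv_smul_smul,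
      smul_left_cancel_iff] at this
    exact hx this
  omega

theorem sq5 [Finite T] [Finite L] [Y.Normal] (d : D16 om Y 5) {y : T} (hy : y ∈ Jz L Y 5 d.ab)
    (h : ∃ x : L, y • x ≠ x) : ∃ t : T, ∀ x : L, t • y • x = y • y • t • x := by
  classical
  have h4 := d.cz (cen L y) fun t ht u hu1 hu2 x => by
    obtain ⟨i, hi⟩ := d.cyc5 hy h ⟨hu1, hu2⟩
    rw [hi, hi]
    clear hi
    induction i with
    | zero => simp
    | succ n ih => rw [pow_succ', mul_smul, mul_smul, ht, ih]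
  rw [cen_index] at h4
  set φ := MulDistribMulAction.toMulAut T L with hφ
  have h5 : (Set.range fun t : T => φ (t * y * t⁻¹)) ⊆ {φ (y ^ 1), φ (y ^ 2), φ (y ^ 3), φ (y ^ 4)} := by
    rintro _ ⟨t, rfl⟩
    obtain ⟨i, hi, e⟩ := d.conj5 hy h t
    have e2 : φ (t * y * t⁻¹) = φ (y ^ i) := MulEquiv.ext e
    rcases hi with rfl | rfl | rfl | rfl <;> simp only [e2] <;> simp
  have h6 := Set.eq_of_subset_of_ncard_le h5 (le_trans (by
    rw [← Finset.coe_singleton, ← Finset.coe_insert, ← Finset.coe_insert, ← Finset.coe_insert,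
      Set.ncard_coe_finset]
    exact Finset.card_le_four) h4)
  obtain ⟨t, ht⟩ : φ (y ^ 2) ∈ Set.range fun t : T => φ (t * y * t⁻¹) := by rw [h6]; simp
  refine ⟨t, fun x => ?_⟩
  have : (t * y * t⁻¹) • t • x = y ^ 2 • t • x := DFunLike.congr_fun ht (t • x)
  rwa [mul_smul, mul_smul, inv_smul_smul, sq, mul_smul] at this

theorem orb5 [Finite T] [Finite L] [Y.Normal] (d : D16 om Y 5) :
    ∃ x x' : L, x ≠ 1 ∧ x' ≠ 1 ∧ o T x = 5 ∧ o T x' = 10 := by
  obtain ⟨y, hy0, hs, h⟩ := d.nt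
  have hy : y ∈ Jz L Y 5 d.ab := ⟨hy0, hs⟩
  have hf := d.fpf5 hs h
  have y5 : ∀ z : L, y • y • y • y • y • z = z := fun z => by
    simpa [pow_succ, mul_smul] using hs z
  have sq : ∀ a b : L, a * b = 1 → a = b := fun a b e => by
    rw [eq_inv_of_mul_eq_one_left e, inv_eq_of_mul_eq_one_left (d.two b)]
  have nm : ∀ z : L, z * y • z * y • y • z * y • y • y • z * y • y • y • y • z = 1 := fun z =>
    hf _ (by
      simp only [smul_mul', y5]
      simp only [mul_assoc, mul_comm])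
  have s1 : ∀ a b : L, om b (y • a) = om a (y • y • y • y • b) := fun a b => by
    rw [d.sy.symm d.two, ← d.sy.inv y a, y5]
  have s2 : ∀ a b : L, om b (y • y • a) = om a (y • y • y • b) := fun a b => by
    rw [d.sy.symm d.two, ← d.sy.inv y a, ← d.sy.inv y (y • a), y5]
  let Q : L → ℂˣ := fun x => om x (y • x) * om x (y • y • x)
  have hQ : ∀ (t : T) (x : L), Q (t • x) = Q x := fun t x => by
    obtain ⟨i, hi, e⟩ := d.conj5 hy h t⁻¹
    have e1 : ∀ z : L, t⁻¹ • y • t • z = y ^ i • z := fun z => by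
      rw [← e, inv_inv, mul_smul, mul_smul]
    have e2 : t⁻¹ • y • y • t • x = y ^ i • y ^ i • x := by
      rw [← e1, ← e1, smul_inv_smul]
    simp only [Q, d.sy.adj, e1, e2]
    rcases hi with rfl | rfl | rfl | rfl <;> simp only [pow_succ, pow_zero, one_mul, mul_smul, y5]
    · rw [← s1, mul_comm]
    · rw [← s2, mul_comm]
    · rw [← s1, ← s2]
  have hg := d.sy.gauss Q (fun a b => by
    have e2 : om a (b * y • b * y • y • b * y • y • y • b * y • y • y • y • b) = 1 := by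
      rw [nm, map_one]
    have e4 : om a (y • b) * om a (y • y • b) * om a (y • y • y • b) * om a (y • y • y • y • b) =
        om a b := by
      simp only [map_mul, mul_assoc] at e2
      simp only [mul_assoc]
      rw [eq_inv_of_mul_eq_one_right e2, inv_eq_of_mul_eq_one_left (om_mul_self d.two a b)]
    simp only [Q, smul_mul', map_mul, MonoidHom.mul_apply, ← e4]
    rw [s1 a b, s2 a b]
    simp only [mul_comm, mul_left_comm]) fun x => sq_cases (by
      simp only [Q]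
      rw [mul_mul_mul_comm, om_mul_self d.two, om_mul_self d.two, one_mul])
  set N := {x : L | Q x = -1} with hN
  have hI : InvS T N := fun t x hx => by
    rw [hN, Set.mem_ofPred_eq, hQ]
    exact hx
  have hN1 : ∀ x ∈ N, x ≠ 1 := fun x hx e => by
    rw [e, hN, Set.mem_ofPred_eq] at hx
    simp only [Q, map_one, MonoidHom.one_apply, mul_one] at hx
    exact one_ne_neg hx
  have hd := dvd_ncard Nat.prime_five y N (hI y) hs fun x hx e => hN1 x hx (hf x e)
  have hc : N.ncard = 10 := by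
    rw [d.card] at hg
    have : ((16 : ℤ) - 2 * (N.ncard : ℤ)) ^ 2 = 4 ^ 2 := by simpa using hg
    rcases sq_eq_sq_iff_eq_or_eq_neg.1 this with e | e <;> omega
  have hS : InvS T ({x : L | x ≠ 1} \ N) := fun t x hx =>
    ⟨invS_ne t x hx.1, fun e => hx.2 (by simpa using hI t⁻¹ _ e)⟩
  have hSc : ({x : L | x ≠ 1} \ N).ncard = 5 := by
    have := Set.ncard_sdiff_add_ncard_of_subset (show N ⊆ {x : L | x ≠ 1} from hN1)
    rw [ncard_ne, d.card, hc] at this
    omega
  have h5 : ∀ x ∈ {x : L | x ≠ 1} \ N, o T x = 5 := fun x hx => by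
    have := hS.o_le hx
    have := d.five_le hx.1
    omega
  have ho : ∀ x : L, x ≠ 1 → o T x = 5 → ∀ t : T, ∃ i < 5, t • x = y ^ i • x := by
    intro x hx e t
    have e1 : (Set.range fun n : ℕ => y ^ n • x) ⊆ orbit T x := by
      rintro _ ⟨n, rfl⟩
      exact ⟨y ^ n, rfl⟩
    have e2 := dvd_ncard Nat.prime_five y (Set.range fun n : ℕ => y ^ n • x) (by
      rintro _ ⟨n, rfl⟩
      exact ⟨n + 1, by simp only [pow_succ', mul_smul]⟩) hs (by
      rintro _ ⟨n, rfl⟩ e3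
      exact invS_ne (y ^ n) x hx (hf _ e3))
    have e3 : (Set.range fun n : ℕ => y ^ n • x).ncard ≠ 0 :=
      Set.ncard_ne_zero_of_mem (a := x) ⟨0, by simp⟩
    have e4 := Set.eq_of_subset_of_ncard_le e1 (by rw [← o_eq]; omega)
    obtain ⟨n, hn⟩ : t • x ∈ Set.range fun n : ℕ => y ^ n • x := e4 ▸ ⟨t, rfl⟩
    exact ⟨n % 5, Nat.mod_lt _ (by norm_num), by rw [← pow_mod_smul hs]; exact hn.symm⟩
  obtain ⟨x, hx⟩ : ({x : L | x ≠ 1} \ N).Nonempty := Set.nonempty_of_ncard_ne_zero (by omega)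
  obtain ⟨t0, ht0⟩ := d.sq5 hy h
  obtain ⟨i, -, hi⟩ := ho x hx.1 (h5 x hx) t0
  have cy : ∀ z : L, (y ^ i)⁻¹ • y • z = y • (y ^ i)⁻¹ • z := fun z => by
    rw [← mul_smul, ← mul_smul, ((Commute.refl y).pow_left i).inv_left.eq]
  have hz1 : x * y • x ≠ 1 := fun e => hx.1 (hf x (sq _ _ e).symm)
  have hz : o T (x * y • x) ≠ 5 := fun e => by
    obtain ⟨j, hj, e1⟩ := ho _ hz1 e ((y ^ i)⁻¹ * t0)
    have e2 : ((y ^ i)⁻¹ * t0) • (x * y • x) = x * y • x * y • (x * y • x) := by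
      rw [mul_smul, smul_mul', ht0, hi, smul_mul', cy, cy, inv_smul_smul, smul_mul', mul_assoc,
        ← mul_assoc (y • x), d.two, one_mul]
    rw [e2] at e1
    generalize x * y • x = z at e1 hz1
    have n := nm z
    rw [e1] at n
    apply hz1
    interval_cases j <;> simp only [pow_succ, pow_zero, one_mul, mul_smul, one_smul] at e1 n
    · exact (smul_eq_iff_eq_inv_smul y).1 (mul_eq_left.1 e1) |>.trans (smul_one _)
    · simpa using e1
    · rw [d.two, one_mul] at n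
      exact hf z (by simpa using (sq _ _ n).symm)
    · rw [mul_comm (y • y • y • z), mul_assoc (y • y • z), d.two, mul_one] at n
      have e3 : y • y • z = z := by simpa using (sq _ _ n).symm
      have e4 := y5 z
      rw [e3, e3] at e4
      exact hf z e4
    · rw [mul_comm _ (y • y • y • y • z), ← mul_assoc, ← mul_assoc, d.two, one_mul] at n
      exact hf z (by simpa using (sq _ _ n).symm)
  have hzN : x * y • x ∈ N := by
    by_contra e
    exact hz (h5 _ ⟨hz1, e⟩)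
  have b1 := hI.ncard_diff hzN
  have b2 := d.five_le hz1
  have b3 := (hI.diff (x * y • x)).zero_or fun w hw => d.five_le (hN1 w hw.1)
  exact ⟨x, _, hx.1, hz1, h5 x hx, by omega⟩

/-- the case of order 16 -/
theorem main [Finite T] [Finite L] [Y.Normal] {s : ℕ} (d : D16 om Y s) (hs : s.Prime) :
    Kap T om 10 ∧ ∃ x x' : L, x ≠ 1 ∧ x' ≠ 1 ∧ ((o T x = 6 ∧ o T x' = 9) ∨
      (o T x = 5 ∧ o T x' = 10 ∧
        ∀ M : Subgroup L, (∀ u ∈ Y, ∀ x ∈ M, u • x ∈ M) → M = ⊥ ∨ M = ⊤)) := by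
  rcases d.s_cases hs with rfl | rfl
  · obtain ⟨x, x', h1, h2, h3⟩ := d.orb3
    exact ⟨d.kap3, x, x', h1, h2, Or.inl h3⟩
  · obtain ⟨x, x', h1, h2, h3, h4⟩ := d.orb5
    exact ⟨d.kap5, x, x', h1, h2, Or.inr ⟨h3, h4, d.irr5⟩⟩

end D16

end Pool.Agent.MP_f0649b_al.Sp
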