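import Mathlib

/-! Finite groups acting on finite symplectic groups: basic tools. -/

open MulAction
open scoped Pointwise

namespace Pool.Agent.MP_f0649b_al.Sp

/-- an invariant nondegenerate alternating form -/
structure Sz (T : Type) {L : Type} [Group T] [CommGroup L] [MulDistribMulAction T L]
    (om : L →* L →* ℂˣ) : Prop where
  alt : ∀ x, om x x = 1
  nd : ∀ x, (∀ y, om x y = 1) → x = 1
  inv : ∀ (t : T) (x y : L), om (t • x) (t • y) = om x y

/-- an invariant nondegenerate alternating form and an irreducible action -/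
structure Sy (T : Type) {L : Type} [Group T] [CommGroup L] [MulDistribMulAction T L]
    (om : L →* L →* ℂˣ) : Prop extends Sz T om where
  irr : ∀ R : Subgroup L, (∀ t : T, ∀ x ∈ R, t • x ∈ R) → R = ⊥ ∨ R = ⊤

/-- the index bound for stabilisers of isotropic subgroups -/
def Kap (T : Type) {L : Type} [Group T] [CommGroup L] [MulDistribMulAction T L]
    (om : L →* L →* ℂˣ) (k : ℕ) : Prop :=
  ∀ (H : Subgroup T) (R : Subgroup L), (∀ h ∈ H, ∀ x ∈ R, h • x ∈ R) →
    (∀ x ∈ R, ∀ y ∈ R, om x y = 1) → k * Nat.card R ≤ H.index * Nat.card L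

/-- subgroups of small index contain `Y` -/
def GP {T : Type} [Group T] (Y : Subgroup T) (n : ℕ) : Prop :=
  ∀ S : Subgroup T, S.index ≤ n → Y ≤ S

/-- characters of subgroups of small index are trivial on `Y` -/
def LC {T : Type} [Group T] (Y : Subgroup T) (n : ℕ) : Prop :=
  ∀ S : Subgroup T, S.index ≤ n → ∀ e : T → ℂˣ, (∀ a ∈ S, ∀ b ∈ S, e (a * b) = e a * e b) →
    ∀ y ∈ Y, e y = 1

/-- orbit size -/
noncomputable def o (T : Type) {L : Type} [Group T] [MulAction T L] (x : L) : ℕ :=
  (stabilizer T x).index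

variable {T L : Type} [Group T] [CommGroup L] [MulDistribMulAction T L] {om : L →* L →* ℂˣ}

theorem o_eq {X : Type} [MulAction T X] (x : X) : o T x = (orbit T x).ncard :=
  index_stabilizer T x

theorem Sz.skew (h : Sz T om) (x y : L) : om y x = (om x y)⁻¹ := by
  have := h.alt (x * y)
  simp only [map_mul, MonoidHom.mul_apply, h.alt, one_mul, mul_one] at this
  exact eq_inv_of_mul_eq_one_left this

/-- orthogonal subgroups are small -/
theorem Sz.card_mul_le [Finite L] (h : Sz T om) (R S : Subgroup L)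
    (hp : ∀ x ∈ R, ∀ y ∈ S, om x y = 1) : Nat.card R * Nat.card S ≤ Nat.card L := by
  let f : R → ((L ⧸ S) →* ℂˣ) := fun r =>
    QuotientGroup.lift S (om r) fun y hy => hp r r.2 y hy
  have hf : Function.Injective f := by
    intro a b hab
    have : (a : L) * (b : L)⁻¹ = 1 := h.nd _ fun y => by
      have e : om a y = om b y := DFunLike.congr_fun hab (QuotientGroup.mk y)
      simp [e]
    exact Subtype.ext (mul_inv_eq_one.1 this)
  have hc : Nat.card ((L ⧸ S) →* ℂˣ) = Nat.card (L ⧸ S) :=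
    CommGroup.card_monoidHom_of_hasEnoughRootsOfUnity _ _
  have hfin : Finite ((L ⧸ S) →* ℂˣ) := Nat.finite_of_card_ne_zero (hc ▸ Nat.card_pos.ne')
  have h1 := Nat.card_le_card_of_injective f hf
  rw [Subgroup.card_eq_card_quotient_mul_card_subgroup S, ← hc]
  exact Nat.mul_le_mul_right _ h1

/-- a Lagrangian subgroup is its own orthogonal -/
theorem Sz.mem_of_perp [Finite L] (h : Sz T om) {R : Subgroup L}
    (hi : ∀ x ∈ R, ∀ y ∈ R, om x y = 1) (hc : Nat.card R * Nat.card R = Nat.card L)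
    {z : L} (hz : ∀ x ∈ R, om x z = 1) : z ∈ R := by
  let P : Subgroup L :=
    { carrier := {w | ∀ x ∈ R, om x w = 1}
      one_mem' := fun x _ => map_one _
      mul_mem' := fun {a b} ha hb x hx => by rw [map_mul, ha x hx, hb x hx, mul_one]
      inv_mem' := fun {a} ha x hx => by rw [map_inv, ha x hx, inv_one] }
  have h1 : R ≤ P := fun w hw x hx => hi x hx w hw
  have h2 := h.card_mul_le R P fun x hx y hy => hy x hx
  rw [← hc] at h2
  have h3 : Nat.card P ≤ Nat.card R := Nat.le_of_mul_le_mul_left h2 Nat.card_pos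
  have h4 : R = P := Subgroup.eq_of_le_of_card_ge h1 h3
  rw [h4]
  exact hz

theorem Sz.not_iso_top (h : Sz T om) [Nontrivial L] : ¬ ∀ x y : L, om x y = 1 := fun e => by
  obtain ⟨x, hx⟩ := exists_ne (1 : L)
  exact hx (h.nd x (e x))

/-- a proper nontrivial subgroup is not invariant -/
theorem Sy.two_le_index [Finite T] (h : Sy T om) {H : Subgroup T} {R : Subgroup L}
    (hH : ∀ g ∈ H, ∀ x ∈ R, g • x ∈ R) (h1 : R ≠ ⊥) (h2 : R ≠ ⊤) : 2 ≤ H.index := by
  have h0 : H.index ≠ 0 := Subgroup.index_ne_zero_of_finite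
  have h3 : H.index ≠ 1 := fun e => by
    rw [Subgroup.index_eq_one] at e
    subst e
    rcases h.irr R fun t => hH t trivial with e | e
    exacts [h1 e, h2 e]
  omega

theorem pow_smul_fix {g : T} {x : L} (h : g • x = x) (n : ℕ) : g ^ n • x = x := by
  induction n with
  | zero => simp
  | succ n ih => rw [pow_succ, mul_smul, h, ih]

/-- counting modulo a prime -/
theorem ncard_mod [Finite L] {p : ℕ} (hp : p.Prime) (g : T) (A : Set L)
    (hA : ∀ x ∈ A, g • x ∈ A) (hg : ∀ x : L, g ^ p • x = x) :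
    A.ncard ≡ {x | x ∈ A ∧ g • x = x}.ncard [MOD p] := by
  classical
  have := Fact.mk hp
  have := Fintype.ofFinite A
  let f : Function.End A := fun x => ⟨g • (x : L), hA x x.2⟩
  have hf : ∀ (n : ℕ) (x : A), (((f ^ n) x : A) : L) = g ^ n • (x : L) := by
    intro n
    induction n with
    | zero => intro x; simp [Function.End.one_def]
    | succ n ih =>
      intro x
      rw [pow_succ', Function.End.mul_def, pow_succ', mul_smul, ← ih]
      rfl
  have h1 : f ^ p ^ 1 = 1 := by
    funext x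
    apply Subtype.ext
    rw [pow_one, hf, hg]
    rfl
  have h2 := Equiv.Perm.card_fixedPoints_modEq h1
  have h3 : Fintype.card f.fixedPoints = {x | x ∈ A ∧ g • x = x}.ncard := by
    rw [← Nat.card_eq_fintype_card, ← Nat.card_coe_set_eq]
    refine Nat.card_congr
      ⟨fun x => ⟨x.1.1, x.1.2, congrArg Subtype.val x.2⟩,
       fun x => ⟨⟨x.1, x.2.1⟩, Subtype.ext x.2.2⟩, fun _ => rfl, fun _ => rfl⟩
  rwa [h3, ← Nat.card_eq_fintype_card, Nat.card_coe_set_eq] at h2

theorem dvd_ncard [Finite L] {p : ℕ} (hp : p.Prime) (g : T) (A : Set L)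
    (hA : ∀ x ∈ A, g • x ∈ A) (hg : ∀ x : L, g ^ p • x = x) (hf : ∀ x ∈ A, g • x ≠ x) :
    p ∣ A.ncard := by
  have h := ncard_mod hp g A hA hg
  have e : {x | x ∈ A ∧ g • x = x} = ∅ := Set.eq_empty_of_forall_notMem fun x hx => hf x hx.1 hx.2
  rw [e, Set.ncard_empty] at h
  exact (Nat.modEq_zero_iff_dvd).1 h

/-- an element without nontrivial fixed points on an invariant subgroup -/
theorem card_mod_one [Finite L] {p : ℕ} (hp : p.Prime) (g : T) (R : Subgroup L)
    (hA : ∀ x ∈ R, g • x ∈ R) (hg : ∀ x : L, g ^ p • x = x) (hf : ∀ x ∈ R, g • x = x → x = 1) :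
    Nat.card R ≡ 1 [MOD p] := by
  have h := ncard_mod hp g (R : Set L) hA hg
  have e : {x | x ∈ (R : Set L) ∧ g • x = x} = {1} := by
    ext x
    exact ⟨fun hx => hf x hx.1 hx.2, fun hx => by rw [hx]; exact ⟨R.one_mem, smul_one g⟩⟩
  rwa [e, Set.ncard_singleton, ← Nat.card_coe_set_eq] at h

/-- the fixed points of an element -/
def fx (L : Type) [CommGroup L] [MulDistribMulAction T L] (g : T) : Subgroup L where
  carrier := {x | g • x = x}
  one_mem' := smul_one g
  mul_mem' := fun {a b} ha hb => by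
    simp only [Set.mem_ofPred_eq] at *
    rw [smul_mul', ha, hb]
  inv_mem' := fun {a} ha => by
    simp only [Set.mem_ofPred_eq] at *
    rw [smul_inv', ha]

theorem mem_fx {g : T} {x : L} : x ∈ fx L g ↔ g • x = x := Iff.rfl

theorem card_fx_mod [Finite L] {p : ℕ} (hp : p.Prime) (g : T) (R : Subgroup L)
    (hA : ∀ x ∈ R, g • x ∈ R) (hg : ∀ x : L, g ^ p • x = x) :
    Nat.card R ≡ Nat.card (R ⊓ fx L g : Subgroup L) [MOD p] := by
  have h := ncard_mod hp g (R : Set L) hA hg
  rwa [← Nat.card_coe_set_eq, ← Nat.card_coe_set_eq] at h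

/-- orbit sizes through a subgroup -/
theorem o_le [Finite T] {X : Type} [MulAction T X] (H : Subgroup T) (x : X) (A : Set X)
    (hA : A.Finite) (h : ∀ g ∈ H, g • x ∈ A) : o T x ≤ H.index * A.ncard := by
  have h1 : (stabilizer T x ⊓ H).index = (stabilizer T x ⊓ H).relIndex H * H.index :=
    (Subgroup.relIndex_mul_index inf_le_right).symm
  have h2 : (stabilizer T x ⊓ H).relIndex H = (orbit H x).ncard := by
    rw [← index_stabilizer H x, Subgroup.inf_relIndex_right, Subgroup.relIndex]
    congr 1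
  have h3 : (orbit H x).ncard ≤ A.ncard := Set.ncard_le_ncard (by
    rintro _ ⟨g, rfl⟩
    exact h g g.2) hA
  have h4 : (stabilizer T x).index ≤ (stabilizer T x ⊓ H).index :=
    Subgroup.index_antitone inf_le_left
  rw [h1, h2, mul_comm] at h4
  exact h4.trans (Nat.mul_le_mul_left _ h3)

theorem ncard_diff_one [Finite L] (R : Subgroup L) : ((R : Set L) \ {1}).ncard = Nat.card R - 1 := by
  rw [Set.ncard_sdiff_singleton_of_mem R.one_mem, ← Nat.card_coe_set_eq]
  rfl

theorem o_le_sub [Finite T] [Finite L] {H : Subgroup T} {R : Subgroup L}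
    (hH : ∀ g ∈ H, ∀ x ∈ R, g • x ∈ R) {x : L} (hx : x ∈ R) (h1 : x ≠ 1) :
    o T x ≤ H.index * (Nat.card R - 1) := by
  rw [← ncard_diff_one]
  exact o_le H x _ (Set.toFinite _) fun g hg =>
    ⟨hH g hg x hx, fun e => h1 ((smul_eq_iff_eq_inv_smul g).1 e |>.trans (smul_one _))⟩

/-- an invariant set -/
def InvS (T : Type) {L : Type} [Group T] [MulAction T L] (A : Set L) : Prop :=
  ∀ t : T, ∀ x ∈ A, t • x ∈ A

theorem InvS.o_le [Finite L] {A : Set L} (h : InvS T A) {x : L} (hx : x ∈ A) : o T x ≤ A.ncard := by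
  rw [o_eq]
  exact Set.ncard_le_ncard (by rintro _ ⟨g, rfl⟩; exact h g x hx) (Set.toFinite _)

theorem InvS.diff {A : Set L} (h : InvS T A) (x : L) : InvS T (A \ orbit T x) := by
  rintro t z ⟨hz, hn⟩
  refine ⟨h t z hz, fun ⟨g, e⟩ => hn ⟨t⁻¹ * g, ?_⟩⟩
  simp only at e ⊢
  rw [mul_smul, e, inv_smul_smul]

theorem InvS.ncard_diff [Finite L] {A : Set L} (h : InvS T A) {x : L} (hx : x ∈ A) :
    (A \ orbit T x).ncard + o T x = A.ncard := by
  rw [o_eq]
  exact Set.ncard_sdiff_add_ncard_of_subset (by rintro _ ⟨g, rfl⟩; exact h g x hx)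

/-- an invariant set is empty or contains an orbit -/
theorem InvS.zero_or [Finite L] {A : Set L} (h : InvS T A) {m : ℕ} (hm : ∀ x ∈ A, m ≤ o T x) :
    A.ncard = 0 ∨ m ≤ A.ncard := by
  rcases A.eq_empty_or_nonempty with e | ⟨x, hx⟩
  · left; rw [e, Set.ncard_empty]
  · exact Or.inr ((hm x hx).trans (h.o_le hx))

theorem invS_ne : InvS T {x : L | x ≠ 1} := fun t _ hx e =>
  hx ((smul_eq_iff_eq_inv_smul t).1 e |>.trans (smul_one _))

theorem ncard_ne [Finite L] : {x : L | x ≠ 1}.ncard = Nat.card L - 1 := by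
  have := ncard_diff_one (⊤ : Subgroup L)
  rw [Subgroup.card_top] at this
  rw [← this]
  congr 1
  ext x
  simp

theorem dvd_o [Finite L] {p : ℕ} (hp : p.Prime) (g : T) (x : L) (hg : ∀ x : L, g ^ p • x = x)
    (hf : ∀ z ∈ orbit T x, g • z ≠ z) : p ∣ o T x := by
  rw [o_eq]
  refine dvd_ncard hp g _ ?_ hg hf
  rintro _ ⟨t, rfl⟩
  exact ⟨g * t, mul_smul g t x⟩

/-- the centraliser of the action of an element -/
def cen (L : Type) [CommGroup L] [MulDistribMulAction T L] (y : T) : Subgroup T where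
  carrier := {t | ∀ x : L, t • y • x = y • t • x}
  one_mem' := by simp
  mul_mem' := fun {a b} ha hb x => by rw [mul_smul, hb, ha, mul_smul]
  inv_mem' := fun {a} ha x => by
    rw [inv_smul_eq_iff, ha, smul_inv_smul]

theorem cen_index (y : T) : (cen L y).index =
    (Set.range fun t : T => MulDistribMulAction.toMulAut T L (t * y * t⁻¹)).ncard := by
  let φ := MulDistribMulAction.toMulAut T L
  let _ : MulAction T (MulAut L) := MulAction.compHom _ ((MulAut.conj).comp φ)
  have e : ∀ (t : T) (a : MulAut L), t • a = φ t * a * (φ t)⁻¹ := fun _ _ => rfl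
  have h1 : cen L y = stabilizer T (φ y) := by
    ext t
    rw [mem_stabilizer_iff, e, mul_inv_eq_iff_eq_mul]
    exact ⟨fun h => MulEquiv.ext h, fun h x => DFunLike.congr_fun h x⟩
  rw [h1, index_stabilizer]
  congr 1
  ext a
  simp only [orbit, Set.mem_range, e, map_mul, map_inv]
  rfl

/-- a Gauss sum: the value distribution of a quadratic refinement of the form -/
theorem Sz.gauss [Finite L] (h : Sz T om) (Q : L → ℂˣ) (hQ : ∀ x y, Q (x * y) = Q x * Q y * om x y)
    (h2 : ∀ x, Q x = 1 ∨ Q x = -1) :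
    ((Nat.card L : ℤ) - 2 * ({x | Q x = -1}.ncard : ℤ)) ^ 2 = Nat.card L := by
  classical
  have := Fintype.ofFinite L
  have q1 : Q 1 = 1 := by
    have := hQ 1 1
    simpa using this
  have hs : ∀ x, (Q x : ℂ) * Q x = 1 := fun x => by rcases h2 x with e | e <;> simp [e]
  have e1 : (∑ x, (Q x : ℂ)) ^ 2 = Nat.card L := by
    rw [sq, Finset.sum_mul_sum]
    have : ∀ x : L, ∑ y, (Q x : ℂ) * Q y = ∑ z, (Q z : ℂ) * om x z := fun x => by
      rw [← Equiv.sum_comp (Equiv.mulLeft x)]
      refine Finset.sum_congr rfl fun z _ => ?_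
      rw [Equiv.coe_mulLeft, hQ, Units.val_mul, Units.val_mul, ← mul_assoc, ← mul_assoc, hs, one_mul]
    simp only [this]
    rw [Finset.sum_comm, Finset.sum_eq_single (1 : L)]
    · simp [q1]
    · intro z _ hz
      rw [← Finset.mul_sum]
      have := sum_hom_units_eq_zero ((Units.coeHom ℂ).comp (om.flip z)) fun e => hz (h.nd z fun y => by
        have e2 : ((om y z : ℂˣ) : ℂ) = 1 := DFunLike.congr_fun e y
        rw [h.skew, Units.val_eq_one.1 e2, inv_one])
      simp only [MonoidHom.comp_apply, MonoidHom.flip_apply, Units.coeHom_apply] at this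
      rw [this, mul_zero]
    · simp
  have e2 : ∑ x, (Q x : ℂ) = (Nat.card L : ℂ) - 2 * ({x | Q x = -1}.ncard : ℂ) := by
    have : ∀ x, (Q x : ℂ) = 1 - 2 * (if Q x = -1 then 1 else 0) := fun x => by
      rcases h2 x with e | e
      · have : Q x ≠ -1 := by
          rw [e]; intro e3
          have := congrArg Units.val e3
          simp only [Units.val_one, Units.val_neg] at this
          norm_num at this
        rw [if_neg this, e]; simp
      · rw [if_pos e, e]; simp; norm_num
    rw [Finset.sum_congr rfl fun x _ => this x, Finset.sum_sub_distrib, ← Finset.mul_sum,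
      Finset.sum_boole, Set.ncard_eq_toFinset_card', Set.toFinset_ofPred]
    simp
  rw [e2] at e1
  exact_mod_cast e1

theorem one_ne_neg : (1 : ℂˣ) ≠ -1 := fun e => by
  have := congrArg Units.val e
  simp only [Units.val_one, Units.val_neg] at this
  norm_num at this

theorem sq_cases {u : ℂˣ} (h : u * u = 1) : u = 1 ∨ u = -1 := by
  have : (u : ℂ) * u = 1 := by rw [← Units.val_mul, h, Units.val_one]
  rcases mul_self_eq_one_iff.1 this with e | e
  · exact Or.inl (Units.ext e)
  · exact Or.inr (Units.ext e)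

theorem card_dvd_pow [Finite L] {p n : ℕ} (hp : p.Prime) (hL : Nat.card L = p ^ n) (R : Subgroup L) :
    ∃ i ≤ n, Nat.card R = p ^ i :=
  (Nat.dvd_prime_pow hp).1 (hL ▸ Subgroup.card_subgroup_dvd_card R)

end Pool.Agent.MP_f0649b_al.Sp
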