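import Pool.Agent.MP_f0649b_al.Sp.T3

/-! The symplectic group of order 16 with a normal abelian action of odd exponent. -/

open MulAction
open scoped Pointwise

namespace Pool.Agent.MP_f0649b_al.Sp

variable {T L : Type} [Group T] [CommGroup L] [MulDistribMulAction T L] {om : L →* L →* ℂˣ}

/-- the elements of `Y` whose `s`-th power acts trivially -/
def Jz (L : Type) [CommGroup L] [MulDistribMulAction T L] (Y : Subgroup T) (s : ℕ)
    (ab : ∀ u ∈ Y, ∀ v ∈ Y, ∀ x : L, u • v • x = v • u • x) : Subgroup T where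
  carrier := {u | u ∈ Y ∧ ∀ x : L, u ^ s • x = x}
  one_mem' := ⟨Y.one_mem, by simp⟩
  mul_mem' := fun {a b} ha hb => ⟨Y.mul_mem ha.1 hb.1, fun x => by
    have c : Commute (MulDistribMulAction.toMulAut T L a) (MulDistribMulAction.toMulAut T L b) :=
      MulEquiv.ext (ab a ha.1 b hb.1)
    have e := DFunLike.congr_fun (c.mul_pow s) x
    rw [← map_mul, ← map_pow, ← map_pow, ← map_pow] at e
    have e2 : (a * b) ^ s • x = a ^ s • b ^ s • x := e
    rw [e2, hb.2, ha.2]⟩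
  inv_mem' := fun {a} ha => ⟨Y.inv_mem ha.1, fun x => by
    rw [inv_pow, inv_smul_eq_iff, ha.2]⟩

theorem Jz_conj {Y : Subgroup T} [hY : Y.Normal] {s : ℕ}
    {ab : ∀ u ∈ Y, ∀ v ∈ Y, ∀ x : L, u • v • x = v • u • x} {u : T} (hu : u ∈ Jz L Y s ab) (t : T) :
    t * u * t⁻¹ ∈ Jz L Y s ab :=
  ⟨hY.conj_mem u hu.1 t, fun x => by rw [conj_pow, mul_smul, mul_smul, hu.2, smul_inv_smul]⟩

/-- the data of the case of order 16 -/
structure D16 (om : L →* L →* ℂˣ) (Y : Subgroup T) (s : ℕ) : Prop where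
  sy : Sy T om
  card : Nat.card L = 16
  two : ∀ x : L, x * x = 1
  gp : GP Y 4
  ab : ∀ u ∈ Y, ∀ v ∈ Y, ∀ x : L, u • v • x = v • u • x
  nt : ∃ y ∈ Y, (∀ x : L, y ^ s • x = x) ∧ ∃ x : L, y • x ≠ x
  cz : ∀ S : Subgroup T,
    (∀ t ∈ S, ∀ u ∈ Y, (∀ x : L, u ^ s • x = x) → ∀ x : L, t • u • x = u • t • x) → 4 ≤ S.index

namespace D16
variable {Y : Subgroup T} {s : ℕ}

theorem fpf [Y.Normal] (d : D16 om Y s) (x : L) (hx : ∀ u ∈ Jz L Y s d.ab, u • x = x) : x = 1 := by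
  let F : Subgroup L :=
    { carrier := {x | ∀ u ∈ Jz L Y s d.ab, u • x = x}
      one_mem' := fun u _ => smul_one u
      mul_mem' := fun {a b} ha hb u hu => by rw [smul_mul', ha u hu, hb u hu]
      inv_mem' := fun {a} ha u hu => by rw [smul_inv', ha u hu] }
  rcases d.sy.irr F (fun t z hz u hu => by
    have := hz _ (Jz_conj hu t⁻¹)
    rwa [inv_inv, mul_smul, mul_smul, inv_smul_eq_iff] at this) with e | e
  · have : x ∈ F := hx
    rwa [e, Subgroup.mem_bot] at this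
  · obtain ⟨y, hy, hs, z, hz⟩ := d.nt
    exact absurd ((e ▸ trivial : z ∈ F) y ⟨hy, hs⟩) hz

theorem five_le [Y.Normal] (d : D16 om Y s) {x : L} (hx : x ≠ 1) : 5 ≤ o T x := by
  by_contra hlt
  exact hx (d.fpf x fun u hu => d.gp (stabilizer T x) (by unfold o at hlt; omega) hu.1)

/-- the image of `Jz` in the automorphism group -/
def im (d : D16 om Y s) : Subgroup (MulAut L) :=
  (Jz L Y s d.ab).map (MulDistribMulAction.toMulAut T L)

theorem im_p (d : D16 om Y s) : IsPGroup s d.im := by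
  rintro ⟨_, u, hu, rfl⟩
  refine ⟨1, Subtype.ext ?_⟩
  rw [pow_one, Subgroup.coe_pow, ← map_pow]
  exact MulEquiv.ext hu.2

theorem s_cases [Finite L] [Y.Normal] (d : D16 om Y s) (hs : s.Prime) : s = 3 ∨ s = 5 := by
  have := Fact.mk hs
  have h := d.im_p.card_modEq_card_fixedPoints L
  have e : fixedPoints d.im L = {1} := by
    ext x
    refine ⟨fun hx => d.fpf x fun u hu => hx ⟨_, u, hu, rfl⟩, fun hx g => ?_⟩
    rw [hx]
    exact map_one (g : MulAut L)
  rw [e, d.card, Nat.card_unique] at h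
  have h2 : s ∣ 3 * 5 := (Nat.modEq_iff_dvd' (by norm_num)).1 h.symm
  rcases (hs.dvd_mul).1 h2 with h3 | h3
  · exact Or.inl ((Nat.prime_dvd_prime_iff_eq hs Nat.prime_three).1 h3)
  · exact Or.inr ((Nat.prime_dvd_prime_iff_eq hs Nat.prime_five).1 h3)

theorem card_fx [Finite L] (d : D16 om Y s) (hs : s.Prime) {k : T} (h1 : ∀ x : L, k ^ s • x = x)
    (h2 : ∃ x : L, k • x ≠ x) : (Nat.card (fx L k) = 1 ∨ Nat.card (fx L k) = 2 ∨
      Nat.card (fx L k) = 4 ∨ Nat.card (fx L k) = 8) ∧ 16 ≡ Nat.card (fx L k) [MOD s] := by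
  have h := card_fx_mod hs k (⊤ : Subgroup L) (fun _ _ => trivial) h1
  rw [top_inf_eq, Subgroup.card_top, d.card] at h
  refine ⟨?_, h⟩
  obtain ⟨i, hi, e⟩ := card_dvd_pow (p := 2) (n := 4) Nat.prime_two d.card (fx L k)
  rcases (by omega : i = 0 ∨ i = 1 ∨ i = 2 ∨ i = 3 ∨ i = 4) with rfl | rfl | rfl | rfl | rfl
  · omega
  · omega
  · omega
  · omega
  · obtain ⟨x, hx⟩ := h2
    have : fx L k = ⊤ := Subgroup.eq_top_of_card_eq _ (by rw [e, d.card]; norm_num)
    exact absurd (this ▸ trivial : x ∈ fx L k) hx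

/-- the index bound follows once no Lagrangian subgroup is normalised by `Y` -/
theorem kap [Finite T] [Finite L] (d : D16 om Y s)
    (h4 : ∀ R : Subgroup L, Nat.card R = 4 → (∀ x ∈ R, ∀ y ∈ R, om x y = 1) →
      ¬ ∀ u ∈ Y, ∀ x ∈ R, u • x ∈ R) : Kap T om 10 := by
  intro H R hH hR
  obtain ⟨i, -, hi'⟩ := card_dvd_pow (p := 2) (n := 4) Nat.prime_two d.card R
  have h1 := d.sy.card_mul_le R R hR
  have h2 := one_le_index H
  rw [hi', d.card, ← pow_add, show 16 = 2 ^ 4 by norm_num,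
    Nat.pow_le_pow_iff_right (by norm_num)] at h1
  rcases (by omega : i = 0 ∨ i = 1 ∨ i = 2) with rfl | rfl | rfl
  · rw [hi', d.card]; omega
  · have := d.sy.two_le_index hH (ne_bot_of_card (by rw [hi']; norm_num))
      (ne_top_of_card (by rw [hi', d.card]; norm_num))
    rw [hi', d.card]; omega
  · rw [hi', d.card]
    by_contra hlt
    exact h4 R hi' hR fun u hu => hH u (d.gp H (by omega) hu)

end D16

end Pool.Agent.MP_f0649b_al.Sp
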