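import Pool.Agent.MP_f0649b_al.Sp.T2

/-! Order 16, the prime 3. -/

open MulAction
open scoped Pointwise

namespace Pool.Agent.MP_f0649b_al.Sp

variable {T L : Type} [Group T] [CommGroup L] [MulDistribMulAction T L] {om : L →* L →* ℂˣ}

theorem pow_mod_smul {g : T} {p : ℕ} (hg : ∀ x : L, g ^ p • x = x) (n : ℕ) (x : L) :
    g ^ n • x = g ^ (n % p) • x := by
  conv_lhs => rw [← Nat.mod_add_div n p, pow_add, pow_mul, mul_smul, pow_smul_fix (hg x)]

/-- a vector with trivial stabiliser in a group of type (3,3) has nine images -/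
theorem nine [Finite L] {y v : T} (hy : ∀ x : L, y ^ 3 • x = x) (hv : ∀ x : L, v ^ 3 • x = x)
    (c : ∀ x : L, y • v • x = v • y • x) {x : L} (h1 : y • x ≠ x) (h2 : v • x ≠ x)
    (h3 : (v * y) • x ≠ x) (h4 : (v * y * y) • x ≠ x) (A : Set L) (hx : x ∈ A)
    (ay : ∀ z ∈ A, y • z ∈ A) (av : ∀ z ∈ A, v • z ∈ A) : 9 ≤ A.ncard := by
  have y3 : ∀ z : L, y • y • y • z = z := fun z => by simpa [pow_three, mul_smul] using hy z
  have v3 : ∀ z : L, v • v • v • z = z := fun z => by simpa [pow_three, mul_smul] using hv z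
  rw [mul_smul] at h3
  rw [mul_smul, mul_smul] at h4
  have cp : ∀ (i j : ℕ) (z : L), y ^ i • v ^ j • z = v ^ j • y ^ i • z := fun i j z => by
    have c' : Commute (MulDistribMulAction.toMulAut T L y) (MulDistribMulAction.toMulAut T L v) :=
      MulEquiv.ext c
    have e := DFunLike.congr_fun (c'.pow_pow i j).eq z
    rw [← map_pow, ← map_pow] at e
    exact e
  have key : ∀ a b : ℕ, v ^ a • y ^ b • x = x → a % 3 = 0 ∧ b % 3 = 0 := by
    intro a b e
    rw [pow_mod_smul hv, pow_mod_smul hy] at e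
    have ha : a % 3 = 0 ∨ a % 3 = 1 ∨ a % 3 = 2 := by omega
    have hb : b % 3 = 0 ∨ b % 3 = 1 ∨ b % 3 = 2 := by omega
    rcases ha with ha | ha | ha <;> rcases hb with hb | hb | hb <;> rw [ha, hb] at e <;>
      simp only [pow_zero, one_smul, pow_one, sq, mul_smul] at e
    · exact ⟨ha, hb⟩
    · exact absurd e h1
    · exact absurd (by have := congrArg (y • ·) e; simpa [y3] using this.symm) h1
    · exact absurd e h2
    · exact absurd e h3
    · exact absurd e h4
    · exact absurd (by have := congrArg (v • ·) e; simpa [v3] using this.symm) h2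
    · refine absurd ?_ h4
      have e2 : v • x = y • x := by have := congrArg (v • ·) e; simpa [v3] using this.symm
      rw [← c, ← c, e2, y3]
    · refine absurd ?_ h3
      have e2 : v • x = y • y • x := by have := congrArg (v • ·) e; simpa [v3] using this.symm
      rw [← c, e2, y3]
  have hp : ∀ (g : T), (∀ z ∈ A, g • z ∈ A) → ∀ (n : ℕ), ∀ z ∈ A, g ^ n • z ∈ A := by
    intro g hg n
    induction n with
    | zero => simp
    | succ n ih => intro z hz; rw [pow_succ, mul_smul]; exact ih _ (hg z hz)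
  let f : Fin 3 × Fin 3 → A := fun p => ⟨v ^ (p.1 : ℕ) • y ^ (p.2 : ℕ) • x, hp v av _ _ (hp y ay _ _ hx)⟩
  have hf : Function.Injective f := by
    rintro ⟨i, j⟩ ⟨i', j'⟩ e
    have e1 : v ^ (i : ℕ) • y ^ (j : ℕ) • x = v ^ (i' : ℕ) • y ^ (j' : ℕ) • x := congrArg Subtype.val e
    have e2 := key (3 - i' + i) (3 - j' + j) (by
      rw [pow_add, pow_add, mul_smul, mul_smul, ← cp, e1, cp, ← mul_smul, ← mul_smul (y ^ _),
        ← pow_add, ← pow_add, Nat.sub_add_cancel i'.2.le, Nat.sub_add_cancel j'.2.le, hv, hy])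
    have := i.2
    have := i'.2
    have := j.2
    have := j'.2
    exact Prod.ext (Fin.ext (by simp only; omega)) (Fin.ext (by simp only; omega))
  have := Nat.card_le_card_of_injective f hf
  rwa [Nat.card_coe_set_eq, Nat.card_prod, Nat.card_eq_fintype_card, Fintype.card_fin] at this

namespace D16
variable {Y : Subgroup T}

theorem two_gen [Finite T] [Y.Normal] (d : D16 om Y 3) : ∃ y ∈ Jz L Y 3 d.ab, ∃ v ∈ Jz L Y 3 d.ab,
    (∃ x : L, y • x ≠ x) ∧ (∃ x : L, v • x ≠ x) ∧ (∃ x : L, (v * y) • x ≠ x) ∧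
      ∃ x : L, (v * y * y) • x ≠ x := by
  obtain ⟨y, hy, hs, x0, hx0⟩ := d.nt
  have y3 : ∀ z : L, y • y • y • z = z := fun z => by simpa [pow_three, mul_smul] using hs z
  refine ⟨y, ⟨hy, hs⟩, ?_⟩
  by_contra hc
  push Not at hc
  have hu : ∀ u ∈ Jz L Y 3 d.ab, (∀ x : L, u • x = x) ∨ (∀ x : L, u • x = y • x) ∨
      ∀ x : L, u • x = y • y • x := fun u hu => by
    by_cases e1 : ∃ x : L, u • x ≠ x
    · by_cases e2 : ∃ x : L, (u * y) • x ≠ x
      · refine Or.inr (Or.inl fun x => ?_)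
        have := hc u hu ⟨x0, hx0⟩ e1 e2 (y • x)
        rwa [mul_smul, mul_smul, y3] at this
      · push Not at e2
        refine Or.inr (Or.inr fun x => ?_)
        have := e2 (y • y • x)
        rwa [mul_smul, y3] at this
    · push Not at e1
      exact Or.inl e1
  have h4 := d.cz (cen L y) fun t ht u hu1 hu2 x => by
    rcases hu u ⟨hu1, hu2⟩ with e | e | e
    · rw [e, e]
    · rw [e, e, ht]
    · rw [e, e, ht, ht]
  rw [cen_index] at h4
  have h5 := Set.ncard_le_ncard (t := {MulDistribMulAction.toMulAut T L y,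
      MulDistribMulAction.toMulAut T L (y * y)})
    (s := Set.range fun t : T => MulDistribMulAction.toMulAut T L (t * y * t⁻¹)) (by
      rintro _ ⟨t, rfl⟩
      rcases hu _ (Jz_conj (ab := d.ab) ⟨hy, hs⟩ t) with e | e | e
      · have := e (t • x0)
        rw [mul_smul, mul_smul, inv_smul_smul, smul_left_cancel_iff] at this
        exact absurd this hx0
      · exact Or.inl (MulEquiv.ext e)
      · exact Or.inr (MulEquiv.ext fun x => (e x).trans (mul_smul y y x).symm))
  have h6 := Set.ncard_insert_le (MulDistribMulAction.toMulAut T L y)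
    {MulDistribMulAction.toMulAut T L (y * y)}
  rw [Set.ncard_singleton] at h6
  omega

theorem fx_le [Finite L] (d : D16 om Y 3) {k : T} (hk : k ∈ Jz L Y 3 d.ab)
    (h2 : ∃ x : L, k • x ≠ x) : Nat.card (fx L k) ≤ 4 := by
  obtain ⟨h3, h4⟩ := d.card_fx Nat.prime_three hk.2 h2
  unfold Nat.ModEq at h4
  omega

theorem kap3 [Finite T] [Finite L] [Y.Normal] (d : D16 om Y 3) : Kap T om 10 := by
  refine d.kap fun R hR hi hY => ?_
  obtain ⟨y, hy, v, hv, n1, n2, n3, n4⟩ := d.two_gen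
  obtain ⟨⟨r, hr⟩, hr1⟩ := (Subgroup.ne_bot_iff_exists_ne_one).1
    (ne_bot_of_card (R := R) (by rw [hR]; norm_num))
  have key : ∀ k ∈ Jz L Y 3 d.ab, (∃ x : L, k • x ≠ x) → k • r ≠ r := by
    rintro k hk ⟨z, hz⟩ e
    have h1 := card_fx_mod Nat.prime_three k R (hY k hk.1) hk.2
    obtain ⟨i, hi2, e2⟩ := (Nat.dvd_prime_pow Nat.prime_two (m := 2)).1
      (hR ▸ Subgroup.card_dvd_of_le (inf_le_left : R ⊓ fx L k ≤ R))
    have h2 : Nat.card (R ⊓ fx L k : Subgroup L) ≠ 1 := fun e3 => by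
      have : r ∈ R ⊓ fx L k := ⟨hr, e⟩
      rw [Subgroup.card_eq_one.1 e3, Subgroup.mem_bot] at this
      exact hr1 (Subtype.ext this)
    have h3 : R ⊓ fx L k = R := Subgroup.eq_of_le_of_card_ge inf_le_left (by
      rw [hR, e2] at h1
      rw [e2] at h2
      rw [hR, e2]
      unfold Nat.ModEq at h1
      rcases (by omega : i = 0 ∨ i = 1 ∨ i = 2) with rfl | rfl | rfl <;> omega)
    have h4 : ∀ x ∈ R, k • x = x := fun x hx => (h3.ge hx).2
    have h5 := h4 _ (d.sy.mem_of_perp hi (by rw [hR, d.card]) (z := k • z * z) fun x hx => by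
      rw [map_mul]
      nth_rewrite 1 [← h4 x hx]
      rw [d.sy.inv, om_mul_self d.two])
    rw [smul_mul', mul_comm, mul_right_inj] at h5
    have h6 := hk.2 z
    rw [pow_three, mul_smul, mul_smul, h5] at h6
    exact hz h6
  have := nine hy.2 hv.2 (d.ab y hy.1 v hv.1) (key y hy n1) (key v hv n2)
    (key _ (mul_mem hv hy) n3) (key _ (mul_mem (mul_mem hv hy) hy) n4) R hr (hY y hy.1) (hY v hv.1)
  rw [← Nat.card_coe_set_eq] at this
  have h7 : 9 ≤ Nat.card R := this
  omega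

theorem orb3 [Finite T] [Finite L] [Y.Normal] (d : D16 om Y 3) :
    ∃ x x' : L, x ≠ 1 ∧ x' ≠ 1 ∧ o T x = 6 ∧ o T x' = 9 := by
  obtain ⟨y, hy, v, hv, n1, n2, n3, n4⟩ := d.two_gen
  have c := d.ab y hy.1 v hv.1
  have m3 := mul_mem hv hy
  have m4 := mul_mem m3 hy
  have hb : ∀ k ∈ Jz L Y 3 d.ab, (∃ x : L, k • x ≠ x) → ((fx L k : Set L) \ {1}).ncard ≤ 3 :=
    fun k hk h2 => by
      have := d.fx_le hk h2
      rw [ncard_diff_one]
      omega
  obtain ⟨x, hx1, hx⟩ : ∃ x ∈ {x : L | x ≠ 1}, x ∉ ((fx L y : Set L) \ {1}) ∪ ((fx L v : Set L) \ {1}) ∪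
      ((fx L (v * y) : Set L) \ {1}) ∪ ((fx L (v * y * y) : Set L) \ {1}) := by
    refine Set.exists_mem_notMem_of_ncard_lt_ncard ?_
    have e1 := Set.ncard_union_le (((fx L y : Set L) \ {1}) ∪ ((fx L v : Set L) \ {1}) ∪
      ((fx L (v * y) : Set L) \ {1})) ((fx L (v * y * y) : Set L) \ {1})
    have e2 := Set.ncard_union_le (((fx L y : Set L) \ {1}) ∪ ((fx L v : Set L) \ {1}))
      ((fx L (v * y) : Set L) \ {1})
    have e3 := Set.ncard_union_le ((fx L y : Set L) \ {1}) ((fx L v : Set L) \ {1})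
    have := hb y hy n1
    have := hb v hv n2
    have := hb _ m3 n3
    have := hb _ m4 n4
    rw [ncard_ne, d.card]
    omega
  have h9 := nine hy.2 hv.2 c (x := x) (fun e => hx (Or.inl (Or.inl (Or.inl ⟨e, hx1⟩))))
    (fun e => hx (Or.inl (Or.inl (Or.inr ⟨e, hx1⟩)))) (fun e => hx (Or.inl (Or.inr ⟨e, hx1⟩)))
    fun e => hx (Or.inr ⟨e, hx1⟩)
  have hfree : ∀ z ∈ orbit T x, ∀ k ∈ Jz L Y 3 d.ab, (∃ w : L, k • w ≠ w) → k • z ≠ z := by
    rintro _ ⟨t, rfl⟩ k hk ⟨w, hw⟩ e
    have hk' := Jz_conj hk t⁻¹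
    rw [inv_inv] at hk'
    have e1 := d.fx_le hk' ⟨t⁻¹ • w, fun e2 => hw (by
      rwa [mul_smul, mul_smul, smul_inv_smul, smul_left_cancel_iff] at e2)⟩
    have e2 := h9 (fx L (t⁻¹ * k * t)) (by
        change (t⁻¹ * k * t) • x = x
        rw [mul_smul, mul_smul, inv_smul_eq_iff]; exact e)
      (fun z hz => by
        change _ • y • z = y • z
        rw [d.ab _ hk'.1 y hy.1, mem_fx.1 hz])
      (fun z hz => by
        change _ • v • z = v • z
        rw [d.ab _ hk'.1 v hv.1, mem_fx.1 hz])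
    rw [← Nat.card_coe_set_eq] at e2
    have e3 : 9 ≤ Nat.card (fx L (t⁻¹ * k * t)) := e2
    omega
  have a1 : 9 ≤ o T x := by
    rw [o_eq]
    refine h9 _ (mem_orbit_self x) ?_ ?_ <;> rintro _ ⟨t, rfl⟩
    exacts [⟨y * t, mul_smul y t x⟩, ⟨v * t, mul_smul v t x⟩]
  have a2 := dvd_o Nat.prime_three y x hy.2 fun z hz => hfree z hz y hy n1
  obtain ⟨z, hz1, hz⟩ : ∃ z : L, z ≠ 1 ∧ z ∉ orbit T x := by
    by_contra hc
    push Not at hc
    have hf : ∀ k ∈ Jz L Y 3 d.ab, (∃ w : L, k • w ≠ w) → ∀ z : L, k • z = z → z = 1 :=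
      fun k hk h z e => by
        by_contra h1
        exact hfree z (hc z h1) k hk h e
    have y3 : ∀ z : L, y • y • y • z = z := fun z => by simpa [pow_three, mul_smul] using hy.2 z
    have v3 : ∀ z : L, v • v • v • z = z := fun z => by simpa [pow_three, mul_smul] using hv.2 z
    have ny := norm_three hy.2 (hf y hy n1) x
    have nv := norm_three hv.2 (hf v hv n2) x
    have sq : ∀ a b : L, a * b = 1 → a = b := fun a b e => by
      rw [eq_inv_of_mul_eq_one_left e, inv_eq_of_mul_eq_one_left (d.two b)]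
    have e1 : v • x * v • v • x = x := (sq _ _ (by rw [← mul_assoc, nv])).symm
    have e2 : y • (y • x * v • v • x) = v • (y • x * v • v • x) := sq _ _ (by
      have e4 : y • v • x * y • v • v • x = y • x := by rw [← smul_mul', e1]
      rw [smul_mul', smul_mul', v3, ← c x]
      calc _ = x * (y • v • x * y • v • v • x) * y • y • x := by
            simp only [mul_assoc, mul_comm, mul_left_comm]
        _ = 1 := by rw [e4, ny])
    have e3 := hf _ m4 n4 (y • x * v • v • x) (by rw [mul_smul, mul_smul, ← c, ← c, ← e2, y3])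
    exact hx1 (hf _ m3 n3 x (by rw [mul_smul, sq _ _ e3, v3]))
  have b1 := (invS_ne (T := T) (L := L)).ncard_diff hx1
  have hz2 : z ∈ {x : L | x ≠ 1} \ orbit T x := ⟨hz1, hz⟩
  have b2 := ((invS_ne (T := T) (L := L)).diff x).ncard_diff hz2
  have b3 := d.five_le hz1
  have b4 := (((invS_ne (T := T) (L := L)).diff x).diff z).zero_or fun w hw => d.five_le hw.1.1
  rw [ncard_ne, d.card] at b1
  exact ⟨z, x, hz1, hx1, by omega, by omega⟩

end D16

end Pool.Agent.MP_f0649b_al.Sp
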