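import Pool.Agent.MP_f0649b_al.Sp.T5

/-! The symplectic group of order 64 with a normal fixed point free action of order 3. -/

open MulAction
open scoped Pointwise

namespace Pool.Agent.MP_f0649b_al.Sp

variable {T L : Type} [Group T] [CommGroup L] [MulDistribMulAction T L] {om : L →* L →* ℂˣ}

theorem om_mul_self (h2 : ∀ x : L, x * x = 1) (x y : L) : om x y * om x y = 1 := by
  rw [← map_mul, h2, map_one]

theorem Sz.symm (h : Sz T om) (h2 : ∀ x : L, x * x = 1) (x y : L) : om y x = om x y := by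
  rw [h.skew, inv_eq_of_mul_eq_one_left (om_mul_self h2 x y)]

theorem Sz.adj (h : Sz T om) (g : T) (x y : L) : om (g • x) y = om x (g⁻¹ • y) := by
  rw [← h.inv g x, smul_inv_smul]

theorem norm_three {y : T} (hy3 : ∀ x : L, y ^ 3 • x = x) (hf : ∀ x : L, y • x = x → x = 1) (x : L) :
    x * y • x * y • y • x = 1 := hf _ (by
  have := hy3 x
  rw [pow_three, mul_smul, mul_smul] at this
  rw [smul_mul', smul_mul', this, mul_comm, mul_assoc])

/-- the numbers of singular and nonsingular vectors -/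
theorem Sz.q64 [Finite L] (h : Sz T om) (hL : Nat.card L = 64) (h2 : ∀ x : L, x * x = 1) {y : T}
    (hy3 : ∀ x : L, y ^ 3 • x = x) (hf : ∀ x : L, y • x = x → x = 1)
    (hn : ∀ t : T, (∀ x : L, (t * y * t⁻¹) • x = y • x) ∨ ∀ x : L, (t * y * t⁻¹) • x = y • y • x) :
    InvS T {x : L | om x (y • x) = -1} ∧ {x : L | om x (y • x) = -1}.ncard = 36 := by
  have e3 : ∀ x : L, y⁻¹ • x = y • y • x := fun x => by
    have := hy3 x
    rw [pow_three, mul_smul, mul_smul] at this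
    rw [inv_smul_eq_iff, this]
  have hI : InvS T {x : L | om x (y • x) = -1} := by
    intro t x hx
    simp only [Set.mem_ofPred_eq] at hx ⊢
    rw [h.adj, ← mul_smul, ← mul_smul]
    rcases hn t⁻¹ with e | e <;> rw [inv_inv] at e <;> rw [e]
    · exact hx
    · rw [← e3, ← h.adj, h.symm h2, hx]
  refine ⟨hI, ?_⟩
  have hg := h.gauss (fun x => om x (y • x)) (fun a b => by
    have e1 : om b (y • a) = om a (y • y • b) := by rw [h.symm h2, h.adj, e3]
    have e2 : om a (b * y • b * y • y • b) = 1 := by rw [norm_three hy3 hf, map_one]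
    have e4 : om a (y • b) * om a (y • y • b) = om a b := by
      rw [map_mul, map_mul, mul_assoc] at e2
      rw [eq_inv_of_mul_eq_one_right e2, inv_eq_of_mul_eq_one_left (om_mul_self h2 a b)]
    simp only [smul_mul', map_mul, MonoidHom.mul_apply, e1, ← e4]
    simp only [mul_comm, mul_left_comm]) fun x => sq_cases (om_mul_self h2 _ _)
  have hd := dvd_ncard Nat.prime_three y {x : L | om x (y • x) = -1} (hI y) hy3 fun x hx e => by
    rw [Set.mem_ofPred_eq, e, h.alt] at hx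
    exact one_ne_neg hx
  rw [hL] at hg
  have : ((64 : ℤ) - 2 * ({x : L | om x (y • x) = -1}.ncard : ℤ)) ^ 2 = 8 ^ 2 := by
    simpa using hg
  rcases sq_eq_sq_iff_eq_or_eq_neg.1 this with e | e <;> omega

theorem Sz.kap_64 [Finite T] [Finite L] (h : Sz T om) (hL : Nat.card L = 64) {Y : Subgroup T}
    (hg : GP Y 4) {y : T} (hy : y ∈ Y) (hy3 : ∀ x : L, y ^ 3 • x = x)
    (hf : ∀ x : L, y • x = x → x = 1) (h12 : ∀ x : L, x ≠ 1 → 12 ≤ o T x) : Kap T om 36 := by
  intro H R hH hR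
  obtain ⟨i, -, hi'⟩ := card_dvd_pow (p := 2) (n := 6) Nat.prime_two hL R
  have h1 := h.card_mul_le R R hR
  have h2 := one_le_index H
  rw [hi', hL, ← pow_add, show 64 = 2 ^ 6 by norm_num, Nat.pow_le_pow_iff_right (by norm_num)] at h1
  have h3 : R ≠ ⊥ → 12 ≤ H.index * (Nat.card R - 1) := fun h0 => by
    obtain ⟨⟨x, hx⟩, hx1⟩ := (Subgroup.ne_bot_iff_exists_ne_one).1 h0
    have hx2 : x ≠ 1 := fun e => hx1 (Subtype.ext e)
    exact (h12 x hx2).trans (o_le_sub hH hx hx2)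
  rcases (by omega : i = 0 ∨ i = 1 ∨ i = 2 ∨ i = 3) with rfl | rfl | rfl | rfl
  · rw [hi', hL]; omega
  · have := h3 (ne_bot_of_card (by rw [hi']; norm_num))
    rw [hi'] at this
    rw [hi', hL]; omega
  · have := h3 (ne_bot_of_card (by rw [hi']; norm_num))
    rw [hi'] at this
    rw [hi', hL]; omega
  · rw [hi', hL]
    by_contra hlt
    have := card_mod_one Nat.prime_three y R (hH y (hg H (by omega) hy)) hy3 fun x _ => hf x
    rw [hi'] at this
    exact absurd this (by decide)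

theorem Sz.orb_64 [Finite T] [Finite L] (h : Sz T om) (hL : Nat.card L = 64)
    (h2 : ∀ x : L, x * x = 1) {y : T}
    (hy3 : ∀ x : L, y ^ 3 • x = x) (hf : ∀ x : L, y • x = x → x = 1)
    (hn : ∀ t : T, (∀ x : L, (t * y * t⁻¹) • x = y • x) ∨ ∀ x : L, (t * y * t⁻¹) • x = y • y • x)
    (h12 : ∀ x : L, x ≠ 1 → 12 ≤ o T x) :
    ∃ x x' : L, x ≠ 1 ∧ x' ≠ 1 ∧ ((o T x = 12 ∧ o T x' = 15) ∨
      (o T x = 27 ∧ (o T x' = 12 ∨ o T x' = 15 ∨ o T x' = 18 ∨ o T x' = 36))) := by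
  obtain ⟨hI, hc⟩ := h.q64 hL h2 hy3 hf hn
  set N := {x : L | om x (y • x) = -1} with hN
  have hN1 : ∀ x ∈ N, x ≠ 1 := fun x hx e => by
    rw [e, hN, Set.mem_ofPred_eq, map_one] at hx
    exact one_ne_neg hx
  have hd : ∀ x : L, x ≠ 1 → 3 ∣ o T x := fun x hx =>
    dvd_o Nat.prime_three y x hy3 fun z hz e => by
      obtain ⟨t, rfl⟩ := hz
      exact invS_ne t x hx (hf _ e)
  have hS : InvS T ({x : L | x ≠ 1} \ N) := fun t x hx =>
    ⟨invS_ne t x hx.1, fun e => hx.2 (by simpa using hI t⁻¹ _ e)⟩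
  have hSc : ({x : L | x ≠ 1} \ N).ncard = 27 := by
    have := Set.ncard_sdiff_add_ncard_of_subset (show N ⊆ {x : L | x ≠ 1} from hN1)
    rw [ncard_ne, hL, hc] at this
    omega
  obtain ⟨x, hx⟩ : ({x : L | x ≠ 1} \ N).Nonempty := Set.nonempty_of_ncard_ne_zero (by omega)
  have a1 := hS.ncard_diff hx
  have a2 := h12 x hx.1
  have a3 := hd x hx.1
  by_cases e : o T x = 27
  · obtain ⟨z, hz⟩ : N.Nonempty := Set.nonempty_of_ncard_ne_zero (by omega)
    have b1 := hI.ncard_diff hz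
    have b2 := h12 z (hN1 z hz)
    have b3 := hd z (hN1 z hz)
    by_cases e2 : o T z ≤ 18 ∨ o T z = 36
    · exact ⟨x, z, hx.1, hN1 z hz, Or.inr ⟨e, by omega⟩⟩
    · obtain ⟨w, hw⟩ : (N \ orbit T z).Nonempty := Set.nonempty_of_ncard_ne_zero (by omega)
      have c1 := (hI.diff z).o_le hw
      have c2 := h12 w (hN1 w hw.1)
      have c3 := hd w (hN1 w hw.1)
      exact ⟨x, w, hx.1, hN1 w hw.1, Or.inr ⟨e, by omega⟩⟩
  · obtain ⟨z, hz⟩ : (({x : L | x ≠ 1} \ N) \ orbit T x).Nonempty :=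
      Set.nonempty_of_ncard_ne_zero (by omega)
    have b1 := (hS.diff x).ncard_diff hz
    have b2 := h12 z hz.1.1
    have b3 := hd z hz.1.1
    have b4 := ((hS.diff x).diff z).zero_or fun w hw => h12 w hw.1.1.1
    by_cases e2 : o T x = 12
    · exact ⟨x, z, hx.1, hz.1.1, Or.inl ⟨e2, by omega⟩⟩
    · exact ⟨z, x, hz.1.1, hx.1, Or.inl ⟨by omega, by omega⟩⟩

end Pool.Agent.MP_f0649b_al.Sp
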