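import Pool.Agent.MP_f0649b_al.Sp.Base

/-! The index bounds for symplectic groups of order 4, 9 and 81. -/

open MulAction
open scoped Pointwise

namespace Pool.Agent.MP_f0649b_al.Sp

variable {T L : Type} [Group T] [CommGroup L] [MulDistribMulAction T L] {om : L →* L →* ℂˣ}

theorem ne_bot_of_card {R : Subgroup L} (h : Nat.card R ≠ 1) : R ≠ ⊥ := fun e => by
  rw [e] at h
  exact h Subgroup.card_bot

theorem ne_top_of_card {R : Subgroup L} (h : Nat.card R ≠ Nat.card L) : R ≠ ⊤ := fun e => by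
  rw [e] at h
  exact h Subgroup.card_top

theorem one_le_index [Finite T] (H : Subgroup T) : 1 ≤ H.index :=
  Nat.one_le_iff_ne_zero.2 Subgroup.index_ne_zero_of_finite

/-- order `q ^ 2` -/
theorem Sy.kap_sq [Finite T] [Finite L] (h : Sy T om) {q : ℕ} (hq : q.Prime)
    (hL : Nat.card L = q ^ 2) : Kap T om (2 * q) := by
  intro H R hH hR
  obtain ⟨i, -, hi⟩ := card_dvd_pow hq hL R
  have h1 := h.card_mul_le R R hR
  have h2 := hq.two_le
  have h3 := one_le_index H
  rw [hi, hL, ← pow_add, Nat.pow_le_pow_iff_right hq.one_lt] at h1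
  rcases (by omega : i = 0 ∨ i = 1) with rfl | rfl
  · rw [hi, hL]
    nlinarith
  · have := h.two_le_index hH (ne_bot_of_card (by rw [hi]; simp; omega))
      (ne_top_of_card (by rw [hi, hL]; nlinarith))
    rw [hi, hL]
    nlinarith

/-- orbits are large when an element of `Y` inverts -/
theorem o_ge_18 [Finite T] {Y : Subgroup T} (hl : LC Y 8) {y : T} (hy : y ∈ Y)
    (hi : ∀ x : L, y • x = x⁻¹) (h3 : ∀ x : L, x ^ 3 = 1) {x : L} (hx : x ≠ 1) : 18 ≤ o T x := by
  classical
  have hne : x⁻¹ ≠ x := fun e => hx (by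
    have := h3 x
    rw [pow_succ, sq] at this
    nth_rewrite 1 [← e] at this
    simpa using this)
  let S : Subgroup T :=
    { carrier := {t | t • x = x ∨ t • x = x⁻¹}
      one_mem' := Or.inl (one_smul _ _)
      mul_mem' := by
        rintro a b (ha | ha) (hb | hb)
        · left; rw [mul_smul, hb, ha]
        · right; rw [mul_smul, hb, smul_inv', ha]
        · right; rw [mul_smul, hb, ha]
        · left; rw [mul_smul, hb, smul_inv', ha, inv_inv]
      inv_mem' := by
        rintro a (ha | ha)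
        · left; rw [inv_smul_eq_iff, ha]
        · right; rw [inv_smul_eq_iff, smul_inv', ha, inv_inv] }
  have hS : 9 ≤ S.index := by
    by_contra hlt
    have := hl S (by omega) (fun t => if t • x = x then 1 else -1) ?_ y hy
    · rw [if_neg (by rw [hi]; exact hne)] at this
      exact one_ne_neg this.symm
    · rintro a (ha | ha) b (hb | hb)
      · simp [mul_smul, ha, hb]
      · simp [mul_smul, ha, hb, hne, smul_inv']
      · simp [mul_smul, ha, hb, hne]
      · simp [mul_smul, ha, hb, hne, smul_inv']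
  have hle : stabilizer T x ≤ S := fun t ht => Or.inl ht
  have h1 := Subgroup.relIndex_mul_index hle
  have h2 : (stabilizer T x).relIndex S ≠ 1 := fun e => by
    rw [Subgroup.relIndex_eq_one] at e
    have : y • x = x := e (Or.inr (hi x))
    exact hne (by rw [← hi, this])
  have h4 : (stabilizer T x).relIndex S ≠ 0 := fun e => by
    rw [e, zero_mul] at h1
    exact Subgroup.index_ne_zero_of_finite h1.symm
  have h5 : 2 ≤ (stabilizer T x).relIndex S := by omega
  unfold o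
  nlinarith

/-- three points of an affine line on three subgroups -/
def Tri (A B C : Subgroup L) (w : L) : Prop := ∃ a, a ∈ C ∧ w * a ∈ B ∧ w * (w * a) ∈ A

theorem Tri.rot (h3 : ∀ x : L, x ^ 3 = 1) {A B C : Subgroup L} {w : L} (h : Tri A B C w) :
    Tri B C A w := by
  obtain ⟨a, h1, h2, h4⟩ := h
  have e : w * (w * (w * a)) = a := by
    rw [← mul_assoc, ← mul_assoc, ← pow_three', h3, one_mul]
  exact ⟨w * (w * a), h4, by rwa [e], by rwa [e]⟩

theorem Tri.swap (h3 : ∀ x : L, x ^ 3 = 1) {A B C : Subgroup L} {w : L} (h : Tri A B C w) :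
    Tri B A C w := by
  obtain ⟨a, h1, h2, h4⟩ := h
  have e : w * (w * a)⁻¹ = a⁻¹ := by rw [mul_inv, mul_inv_cancel_left]
  have e3 : w * w * w = 1 := by rw [← pow_three', h3]
  have hw : w⁻¹ = w * w := inv_eq_of_mul_eq_one_left e3
  refine ⟨a⁻¹, C.inv_mem h1, ?_, ?_⟩
  · have := A.inv_mem h4
    rwa [← mul_assoc, ← hw, mul_inv, inv_inv] at this
  · have := B.inv_mem h2
    rwa [mul_inv, hw, mul_assoc] at this

theorem Sy.no_three [Finite L] (h : Sy T om) (h3 : ∀ x : L, x ^ 3 = 1) {A B C : Subgroup L}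
    (hA : ∀ x ∈ A, ∀ y ∈ A, om x y = 1) (hB : ∀ x ∈ B, ∀ y ∈ B, om x y = 1)
    (hC : ∀ x ∈ C, ∀ y ∈ C, om x y = 1) (hd : Disjoint B C)
    (hc : Nat.card B * Nat.card C = Nat.card L) (h0 : A ≠ ⊥)
    (hp : ∀ (t : T) (w : L), Tri (t • A) (t • B) (t • C) w → Tri A B C w) : False := by
  let W : Subgroup L :=
    { carrier := {w | Tri A B C w}
      one_mem' := ⟨1, C.one_mem, by simp, by simp⟩
      mul_mem' := by
        rintro u v ⟨a, h1, h2, h4⟩ ⟨b, k1, k2, k4⟩
        refine ⟨a * b, C.mul_mem h1 k1, ?_, ?_⟩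
        · rw [mul_mul_mul_comm]; exact B.mul_mem h2 k2
        · rw [mul_mul_mul_comm u v a b, mul_mul_mul_comm]; exact A.mul_mem h4 k4
      inv_mem' := by
        rintro u ⟨a, h1, h2, h4⟩
        refine ⟨a⁻¹, C.inv_mem h1, ?_, ?_⟩
        · rw [← mul_inv]; exact B.inv_mem h2
        · rw [← mul_inv, ← mul_inv]; exact A.inv_mem h4 }
  have hW : ∀ t : T, ∀ w ∈ W, t • w ∈ W := by
    rintro t w ⟨a, h1, h2, h4⟩
    refine hp t _ ⟨t • a, Subgroup.smul_mem_pointwise_smul _ _ _ h1, ?_, ?_⟩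
    · rw [← smul_mul']; exact Subgroup.smul_mem_pointwise_smul _ _ _ h2
    · rw [← smul_mul', ← smul_mul']; exact Subgroup.smul_mem_pointwise_smul _ _ _ h4
  obtain ⟨⟨a, ha⟩, ha1⟩ := (Subgroup.ne_bot_iff_exists_ne_one).1 h0
  have ha2 : a ≠ 1 := fun e => ha1 (Subtype.ext e)
  have : Nontrivial L := ⟨⟨a, 1, ha2⟩⟩
  rcases h.irr W hW with e | e
  · obtain ⟨⟨⟨b, hb⟩, ⟨c, hc'⟩⟩, e2⟩ :=
      (Subgroup.isComplement'_of_card_mul_and_disjoint hc hd).2 a⁻¹
    simp only at e2
    have e3 : b * c⁻¹ * (b * c⁻¹ * c) = a := by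
      have hb3 : b * b = b⁻¹ := eq_inv_of_mul_eq_one_left (by rw [← pow_three', h3])
      rw [inv_mul_cancel_right, mul_right_comm, hb3, ← mul_inv, e2, inv_inv]
    have hw : b * c⁻¹ ∈ W := ⟨c, hc', by rwa [inv_mul_cancel_right], by rwa [e3]⟩
    rw [e, Subgroup.mem_bot, mul_inv_eq_one] at hw
    have hb1 : b = 1 := Subgroup.disjoint_def.1 hd hb (hw ▸ hc')
    rw [← hw, hb1, mul_one] at e2
    exact ha2 (inv_eq_one.1 e2.symm)
  · refine h.not_iso_top fun u v => ?_
    obtain ⟨a, h1, h2, h4⟩ : u ∈ W := e ▸ trivial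
    obtain ⟨b, k1, k2, k4⟩ : v ∈ W := e ▸ trivial
    have e1 := hC a h1 b k1
    have e2 := hB _ h2 _ k2
    have e3 := hA _ h4 _ k4
    have e4 : om u v ^ 3 = 1 := by rw [← map_pow, h3, map_one]
    simp only [map_mul, MonoidHom.mul_apply, e1, mul_one] at e2 e3
    have e5 : om u v * (om u b * om a v) = 1 := by rw [← e2]; simp only [mul_comm, mul_left_comm]
    have e6 : (om u v * (om u b * om a v)) ^ 2 * om u v ^ 2 = 1 := by
      rw [← e3]; simp only [sq, mul_comm, mul_left_comm]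
    rw [e5, one_pow, one_mul] at e6
    rwa [pow_succ, e6, one_mul] at e4

/-- order 81 -/
theorem Sy.kap_81 [Finite T] [Finite L] (h : Sy T om) (hL : Nat.card L = 81)
    (h3 : ∀ x : L, x ^ 3 = 1) {Y : Subgroup T} (hl : LC Y 8) {y : T} (hy : y ∈ Y)
    (hi : ∀ x : L, y • x = x⁻¹) : Kap T om 36 := by
  intro H R hH hR
  obtain ⟨i, -, hi'⟩ := card_dvd_pow (p := 3) (n := 4) Nat.prime_three hL R
  have h1 := h.card_mul_le R R hR
  have h2 := one_le_index H
  rw [hi', hL, ← pow_add, show 81 = 3 ^ 4 by norm_num, Nat.pow_le_pow_iff_right (by norm_num)] at h1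
  rcases (by omega : i = 0 ∨ i = 1 ∨ i = 2) with rfl | rfl | rfl
  · rw [hi', hL]; omega
  · have := h.two_le_index hH (ne_bot_of_card (by rw [hi']; norm_num))
      (ne_top_of_card (by rw [hi', hL]; norm_num))
    rw [hi', hL]; omega
  rw [hi', hL]
  by_contra hlt
  have h9 : Nat.card R = 9 := by rw [hi']; norm_num
  have hle : H ≤ stabilizer T R := fun g hg => by
    rw [mem_stabilizer_iff]
    refine le_antisymm ?_ fun x hx => ?_
    · rintro _ ⟨x, hx, rfl⟩
      exact hH g hg x hx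
    · rw [Subgroup.mem_pointwise_smul_iff_inv_smul_mem]
      exact hH _ (H.inv_mem hg) x hx
  have h4 : (stabilizer T R).index ≤ H.index := Subgroup.index_antitone hle
  have hR0 : R ≠ ⊥ := ne_bot_of_card (by rw [h9]; norm_num)
  obtain ⟨⟨x, hx⟩, hx1⟩ := (Subgroup.ne_bot_iff_exists_ne_one).1 hR0
  have h5 := o_le_sub (H := stabilizer T R) (R := R) (fun g hg z hz => by
    rw [← mem_stabilizer_iff.1 hg]; exact Subgroup.smul_mem_pointwise_smul _ _ _ hz) hx
    fun e => hx1 (Subtype.ext e)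
  have h6 := o_ge_18 hl hy hi h3 (x := x) fun e => hx1 (Subtype.ext e)
  rw [h9] at h5
  have h7 : (orbit T R).ncard = 3 := by rw [← index_stabilizer]; omega
  obtain ⟨A, B, C, hAB, hAC, hBC, hO⟩ := Set.ncard_eq_three.1 h7
  have hm : ∀ D ∈ orbit T R, Nat.card D = 9 ∧ ∀ x ∈ D, ∀ y ∈ D, om x y = 1 := by
    rintro _ ⟨t, rfl⟩
    refine ⟨?_, ?_⟩
    · rw [← h9]
      exact (Nat.card_congr (Subgroup.equivSMul t R).toEquiv).symm
    · rintro _ ⟨u, hu, rfl⟩ _ ⟨v, hv, rfl⟩
      exact (h.inv t u v).trans (hR u hu v hv)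
  have hs : ∀ (t : T), ∀ D ∈ orbit T R, t • D ∈ orbit T R := by
    rintro t _ ⟨g, rfl⟩
    exact ⟨t * g, mul_smul t g R⟩
  have hA : A ∈ orbit T R := by rw [hO]; simp
  have hB : B ∈ orbit T R := by rw [hO]; simp
  have hC : C ∈ orbit T R := by rw [hO]; simp
  have hi3 : ∀ D ∈ orbit T R, ∀ E ∈ orbit T R, D ≠ E → ((D ⊓ E : Subgroup L) : Set L).ncard ≤ 3 := by
    intro D hD E hE hne
    have e1 : Nat.card (D ⊓ E : Subgroup L) ∣ 3 ^ 2 := by
      have := Subgroup.card_dvd_of_le (inf_le_left : D ⊓ E ≤ D)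
      rwa [(hm D hD).1] at this
    obtain ⟨j, hj, e2⟩ := (Nat.dvd_prime_pow Nat.prime_three).1 e1
    rw [← Nat.card_coe_set_eq]
    change Nat.card (D ⊓ E : Subgroup L) ≤ 3
    rcases (by omega : j = 0 ∨ j = 1 ∨ j = 2) with rfl | rfl | rfl
    · omega
    · omega
    · exfalso
      have e3 : D ⊓ E = D := Subgroup.eq_of_le_of_card_ge inf_le_left (by rw [(hm D hD).1]; omega)
      have e4 : D ⊓ E = E := Subgroup.eq_of_le_of_card_ge inf_le_right (by rw [(hm E hE).1]; omega)
      exact hne (e3.symm.trans e4)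
  have hp : ∀ t : T, (t • A = A ∨ t • A = B ∨ t • A = C) ∧ (t • B = A ∨ t • B = B ∨ t • B = C) ∧
      (t • C = A ∨ t • C = B ∨ t • C = C) := fun t => by
    have e1 := hs t A hA
    have e2 := hs t B hB
    have e3 := hs t C hC
    rw [hO] at e1 e2 e3
    exact ⟨e1, e2, e3⟩
  have hd : Disjoint B C := by
    rw [Subgroup.disjoint_def]
    intro z hzB hzC
    by_contra hz
    have e1 := o_ge_18 hl hy hi h3 hz
    have e2 := o_le (⊤ : Subgroup T) z
      (((A ⊓ B : Subgroup L) : Set L) ∪ (A ⊓ C : Subgroup L) ∪ (B ⊓ C : Subgroup L))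
      (Set.toFinite _) fun g _ => by
        have k1 := Subgroup.smul_mem_pointwise_smul _ g _ hzB
        have k2 := Subgroup.smul_mem_pointwise_smul _ g _ hzC
        have k3 : g • B ≠ g • C := fun e => hBC (smul_left_cancel g e)
        obtain ⟨-, e2 | e2 | e2, e3 | e3 | e3⟩ := hp g <;> rw [e2] at k1 k3 <;> rw [e3] at k2 k3 <;>
          simp [k1, k2] at k3 ⊢
    have e3 := Set.ncard_union_le (((A ⊓ B : Subgroup L) : Set L) ∪ (A ⊓ C : Subgroup L))
      ((B ⊓ C : Subgroup L) : Set L)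
    have e4 := Set.ncard_union_le ((A ⊓ B : Subgroup L) : Set L) ((A ⊓ C : Subgroup L) : Set L)
    have e5 := hi3 A hA B hB hAB
    have e6 := hi3 A hA C hC hAC
    have e7 := hi3 B hB C hC hBC
    rw [Subgroup.index_top] at e2
    omega
  refine h.no_three h3 (hm A hA).2 (hm B hB).2 (hm C hC).2 hd
    (by rw [(hm B hB).1, (hm C hC).1, hL]) (ne_bot_of_card (by rw [(hm A hA).1]; norm_num))
    fun t w hw => ?_
  have k1 : t • A ≠ t • B := fun e => hAB (smul_left_cancel t e)
  have k2 : t • A ≠ t • C := fun e => hAC (smul_left_cancel t e)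
  have k3 : t • B ≠ t • C := fun e => hBC (smul_left_cancel t e)
  obtain ⟨e1 | e1 | e1, e2 | e2 | e2, e3 | e3 | e3⟩ := hp t <;> rw [e1, e2, e3] at hw <;>
    rw [e1, e2] at k1 <;> rw [e1, e3] at k2 <;> rw [e2, e3] at k3 <;>
    first
      | exact absurd rfl k1
      | exact absurd rfl k2
      | exact absurd rfl k3
      | exact hw
      | exact hw.rot h3
      | exact (hw.rot h3).rot h3
      | exact hw.swap h3
      | exact (hw.rot h3).swap h3
      | exact ((hw.rot h3).rot h3).swap h3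

end Pool.Agent.MP_f0649b_al.Sp
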